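import Pool.Agent.W567.AF.C1
import Pool.Agent.W169.AF.Stm2

set_option autoImplicit false

/-!
# Part C1w of project AF: few characters are bad (wide version, a ≤ log Q / 10)
-/

namespace Pool.Agent.W226.AF

open Finset Filter Topology MeasureTheory
open Pool.Agent.H24R2.DZ (NN bb mo cc yy ra)
open Pool.Agent.W169.AF
open Pool.Agent.W567.AF (FS_sigma markov_fin cont_MX est1 est2)

theorem c1w (hSYM : S_SYM) (h1 : S_MV1w) (h2 : S_MV2w) : S_C1w := by
  intro η ε hη hε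
  set θ := min (1 / 200 : ℝ) (ε / 1000) with hθ
  have hθ0 : 0 < θ := by positivity
  have hθ1 : θ ≤ 1 / 200 := min_le_left _ _
  have hθ2 : θ ≤ ε / 1000 := min_le_right _ _
  obtain ⟨C1, T1, hC1, hT1, H1⟩ := h1 θ hθ0 hθ1
  obtain ⟨C2, T2, hC2, hT2, H2⟩ := h2 θ hθ0 hθ1
  set K := (1 + 9600 / ε) ^ 20 with hK
  have hK0 : 0 < K := by positivity
  refine ⟨θ, min (θ / 2000) (ε / 2), 1800 * C1 / η + 1800 * C2 * K, 1, max (max T1 T2) (Real.exp 1000), hθ0, hθ1,
    by positivity, by positivity, le_rfl, (hT1.trans (le_max_left _ _)).trans (le_max_left _ _), ?_⟩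
  intro Q a t0 hT ha haT ht0
  set c := min (θ / 2000) (ε / 2) with hc
  have hTT1 : T1 ≤ Q := ((le_max_left _ _).trans (le_max_left _ _)).trans hT
  have hTT2 : T2 ≤ Q := ((le_max_right _ _).trans (le_max_left _ _)).trans hT
  have hTT3 : Real.exp 1000 ≤ Q := (le_max_right _ _).trans hT
  have hT2' : (2 : ℝ) ≤ Q := hT1.trans hTT1
  have hT0 : (0 : ℝ) < Q := by linarith
  have hL : 1000 ≤ Real.log Q := by
    rw [Real.le_log_iff_exp_le hT0]
    exact hTT3
  have hL0 : 0 < Real.log Q := by linarith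
  set r := ra Q a with hr
  have hr_eq : r * Real.log Q = 2 * a := by
    rw [hr]; unfold ra; field_simp
  have hr0 : 0 < r := by rw [hr]; unfold ra; positivity
  have hr1 : r ≤ 1 / 5 := by
    rw [hr]; unfold ra
    rw [div_le_iff₀ (by positivity)]; linarith
  -- the height
  have hpow : 13 + (Q : ℝ) ^ (1 / 30 : ℝ) ≤ (Q : ℝ) ^ (1 / 20 : ℝ) := by
    have e1 : (Q : ℝ) ^ (1 / 20 : ℝ) = (Q : ℝ) ^ (1 / 60 : ℝ) * (Q : ℝ) ^ (1 / 30 : ℝ) := by
      rw [← Real.rpow_add hT0]; norm_num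
    have e2 : (14 : ℝ) ≤ (Q : ℝ) ^ (1 / 60 : ℝ) := by
      rw [Real.rpow_def_of_pos hT0]
      have := Real.add_one_le_exp (Real.log Q * (1 / 60))
      linarith
    have e3 : (1 : ℝ) ≤ (Q : ℝ) ^ (1 / 30 : ℝ) := Real.one_le_rpow (by linarith) (by norm_num)
    rw [e1]
    nlinarith
  have hs : ∀ x y : ℝ, 0 ≤ x → x ≤ 6 → |y| ≤ 6 →
      ‖(1 / 2 + x + (t0 + y) * Complex.I : ℂ)‖ ≤ (Q : ℝ) ^ (1 / 20 : ℝ) := by
    intro x y hx0 hx1 hy
    have e : (1 / 2 + x + (t0 + y) * Complex.I : ℂ) =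
        ((1 / 2 + x : ℝ) : ℂ) + ((t0 + y : ℝ) : ℂ) * Complex.I := by push_cast; ring
    rw [e]
    calc ‖((1 / 2 + x : ℝ) : ℂ) + ((t0 + y : ℝ) : ℂ) * Complex.I‖
        ≤ ‖((1 / 2 + x : ℝ) : ℂ)‖ + ‖((t0 + y : ℝ) : ℂ) * Complex.I‖ := norm_add_le _ _
      _ = |1 / 2 + x| + |t0 + y| := by
          rw [norm_mul, Complex.norm_I, mul_one, Complex.norm_real, Complex.norm_real,
            Real.norm_eq_abs, Real.norm_eq_abs]
      _ ≤ 7 + (|t0| + |y|) := by
          gcongr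
          · rw [abs_le]; constructor <;> linarith
          · exact abs_add_le _ _
      _ ≤ 13 + (Q : ℝ) ^ (1 / 30 : ℝ) := by linarith
      _ ≤ _ := hpow
  have hmem : ∀ p ∈ (Icc 2 Q).sigma PC, 2 ≤ p.1 ∧ p.2 ∈ PC p.1 := by
    intro p hp
    rw [Finset.mem_sigma, Finset.mem_Icc] at hp
    exact ⟨hp.1.1, hp.2⟩
  have hcLF : ∀ p ∈ (Icc 2 Q).sigma PC, Continuous (LF p.1 p.2) := fun p hp =>
    (hSYM p.1 (hmem p hp).1 p.2 (hmem p hp).2).2.1.continuous
  classical
  -- first condition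
  have B1 : ∑ p ∈ (Icc 2 Q).sigma PC, (if η * r ^ 2 < ∫ x in (r / 4000)..(30 * r),
      ∫ y in (-(30 * r))..(30 * r),
      ‖LF p.1 p.2 (1 / 2 + x + (t0 + y) * Complex.I) *
        MX θ Q p.1 p.2 (1 / 2 + x + (t0 + y) * Complex.I) - 1‖ ^ 2 then (1 : ℝ) else 0) ≤
      (30 * r - r / 4000) * (2 * (30 * r)) * (C1 * (Q : ℝ) ^ 2 * Real.exp (-(θ * a / 2000))) /
        (η * r ^ 2) := by
    apply markov_fin ((Icc 2 Q).sigma PC) (fun p x y => ‖LF p.1 p.2 (1 / 2 + x + (t0 + y) * Complex.I) *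
        MX θ Q p.1 p.2 (1 / 2 + x + (t0 + y) * Complex.I) - 1‖ ^ 2)
    · intro p hp
      have hl : Continuous fun w : ℝ × ℝ => (1 / 2 + (w.1 : ℂ) + ((t0 : ℂ) + (w.2 : ℂ)) * Complex.I) := by
        fun_prop
      exact ((((hcLF p hp).comp hl).mul ((cont_MX θ Q p.1 p.2).comp hl)).sub continuous_const).norm.pow 2
    · intro p hp x y
      positivity
    · linarith
    · positivity
    · positivity
    · intro x hx y hy
      have hx0 : 0 < x := by linarith [hx.1]
      have hx1 : x ≤ 6 := by linarith [hx.2]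
      have hy1 : |y| ≤ 6 := by
        rw [abs_le]; constructor <;> linarith [hy.1, hy.2]
      have hre : (1 / 2 + x + (t0 + y) * Complex.I : ℂ).re = 1 / 2 + x := by
        simp
      have hb := H1 Q hTT1 (1 / 2 + x + (t0 + y) * Complex.I) (by rw [hre]; linarith)
        (by rw [hre]; linarith) (hs x y hx0.le hx1 hy1)
      rw [FS_sigma, hre] at hb
      refine hb.trans ?_
      gcongr
      have e1 : θ * a / 2000 = θ * (r / 4000 * Real.log Q) := by
        have : r / 4000 * Real.log Q = 2 * a / 4000 := by rw [← hr_eq]; ring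
        rw [this]; ring
      have e2 : (1 / 2 + x - 1 / 2 : ℝ) = x := by ring
      rw [e1, e2, mul_assoc]
      have := hx.1
      gcongr
  -- second condition
  have B2 : ∑ p ∈ (Icc 2 Q).sigma PC, (if Real.exp (ε * a) * r ^ 2 < ∫ x in (0 : ℝ)..(30 * r),
      ∫ y in (-(30 * r))..(30 * r),
      ‖LF p.1 p.2 (1 / 2 + x + (t0 + y) * Complex.I) *
        MX θ Q p.1 p.2 (1 / 2 + r + t0 * Complex.I)‖ ^ 2 then (1 : ℝ) else 0) ≤
      (30 * r - 0) * (2 * (30 * r)) *
        (C2 * (Q : ℝ) ^ 2 * (1 + 120 * a) ^ 20 * Real.exp (240 * θ * a)) /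
        (Real.exp (ε * a) * r ^ 2) := by
    apply markov_fin ((Icc 2 Q).sigma PC) (fun p x y => ‖LF p.1 p.2 (1 / 2 + x + (t0 + y) * Complex.I) *
        MX θ Q p.1 p.2 (1 / 2 + r + t0 * Complex.I)‖ ^ 2)
    · intro p hp
      have hl : Continuous fun w : ℝ × ℝ => (1 / 2 + (w.1 : ℂ) + ((t0 : ℂ) + (w.2 : ℂ)) * Complex.I) := by
        fun_prop
      exact (((hcLF p hp).comp hl).mul continuous_const).norm.pow 2
    · intro p hp x y
      positivity
    · linarith
    · positivity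
    · positivity
    · intro x hx y hy
      have hx0 : 0 ≤ x := hx.1
      have hx1 : x ≤ 6 := by linarith [hx.2]
      have hy1 : |y| ≤ 6 := by
        rw [abs_le]; constructor <;> linarith [hy.1, hy.2]
      set β : ℂ := ((r - x : ℝ) : ℂ) - (y : ℂ) * Complex.I with hβ
      have hβn : ‖β‖ ≤ 60 * r := by
        calc ‖β‖ ≤ ‖((r - x : ℝ) : ℂ)‖ + ‖(y : ℂ) * Complex.I‖ := norm_sub_le _ _
          _ = |r - x| + |y| := by
              rw [norm_mul, Complex.norm_I, mul_one, Complex.norm_real, Complex.norm_real,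
                Real.norm_eq_abs, Real.norm_eq_abs]
          _ ≤ 30 * r + 30 * r := by
              gcongr
              · rw [abs_le]; constructor <;> linarith [hx.2]
              · rw [abs_le]; constructor <;> linarith [hy.1, hy.2]
          _ = 60 * r := by ring
      have hre : (1 / 2 + x + (t0 + y) * Complex.I : ℂ).re = 1 / 2 + x := by
        simp
      have hb := H2 Q hTT2 (1 / 2 + x + (t0 + y) * Complex.I) β (by rw [hre]; linarith)
        (by rw [hre]; linarith) (by linarith) (hs x y hx0 hx1 hy1)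
      have hLβ : Real.log Q * ‖β‖ ≤ 120 * a := by
        calc Real.log Q * ‖β‖ ≤ Real.log Q * (60 * r) := by gcongr
          _ = 60 * (r * Real.log Q) := by ring
          _ = 120 * a := by rw [hr_eq]; ring
      have e2 : (1 / 2 + x + (t0 + y) * Complex.I + β : ℂ) = 1 / 2 + r + t0 * Complex.I := by
        rw [hβ]; push_cast; ring
      rw [FS_sigma, e2] at hb
      refine hb.trans ?_
      have hβ0 : 0 ≤ Real.log Q * ‖β‖ := by positivity
      have e1 : 2 * θ * Real.log Q * ‖β‖ ≤ 240 * θ * a := by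
        calc 2 * θ * Real.log Q * ‖β‖ = 2 * θ * (Real.log Q * ‖β‖) := by ring
          _ ≤ 2 * θ * (120 * a) := by gcongr
          _ = 240 * θ * a := by ring
      gcongr
  have hsub : cnt Q (fun q χ => ¬ Gd θ η ε Q a t0 q χ) ≤
      ∑ p ∈ (Icc 2 Q).sigma PC, (if η * r ^ 2 < ∫ x in (r / 4000)..(30 * r),
      ∫ y in (-(30 * r))..(30 * r),
      ‖LF p.1 p.2 (1 / 2 + x + (t0 + y) * Complex.I) *
        MX θ Q p.1 p.2 (1 / 2 + x + (t0 + y) * Complex.I) - 1‖ ^ 2 then (1 : ℝ) else 0) +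
      ∑ p ∈ (Icc 2 Q).sigma PC, (if Real.exp (ε * a) * r ^ 2 < ∫ x in (0 : ℝ)..(30 * r),
      ∫ y in (-(30 * r))..(30 * r),
      ‖LF p.1 p.2 (1 / 2 + x + (t0 + y) * Complex.I) *
        MX θ Q p.1 p.2 (1 / 2 + r + t0 * Complex.I)‖ ^ 2 then (1 : ℝ) else 0) := by
    unfold cnt
    rw [FS_sigma, ← Finset.sum_add_distrib]
    refine Finset.sum_le_sum fun p hp => ?_
    by_cases hg : ¬ Gd θ η ε Q a t0 p.1 p.2
    · rw [if_pos hg]
      unfold Gd at hg
      rw [not_and_or, not_le, not_le] at hg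
      rcases hg with hg | hg
      · rw [if_pos hg]
        have : (0 : ℝ) ≤ (if Real.exp (ε * a) * r ^ 2 < ∫ x in (0 : ℝ)..(30 * r),
          ∫ y in (-(30 * r))..(30 * r),
          ‖LF p.1 p.2 (1 / 2 + x + (t0 + y) * Complex.I) *
            MX θ Q p.1 p.2 (1 / 2 + r + t0 * Complex.I)‖ ^ 2 then (1 : ℝ) else 0) := by
          split_ifs <;> norm_num
        linarith
      · rw [if_pos hg]
        have : (0 : ℝ) ≤ (if η * r ^ 2 < ∫ x in (r / 4000)..(30 * r),
          ∫ y in (-(30 * r))..(30 * r),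
          ‖LF p.1 p.2 (1 / 2 + x + (t0 + y) * Complex.I) *
            MX θ Q p.1 p.2 (1 / 2 + x + (t0 + y) * Complex.I) - 1‖ ^ 2 then (1 : ℝ) else 0) := by
          split_ifs <;> norm_num
        linarith
    · rw [if_neg hg]
      apply add_nonneg <;> split_ifs <;> norm_num
  refine hsub.trans ((add_le_add B1 B2).trans ?_)
  have E1 := est1 η θ c C1 ((Q : ℝ) ^ 2) r a hη hC1 (by positivity) hr0 (by linarith) (min_le_left _ _)
  have E2 := est2 ε θ c C2 ((Q : ℝ) ^ 2) r a hε hθ2 hC2 (by positivity) hr0 (by linarith) (min_le_right _ _)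
  rw [← hK] at E2
  calc _ ≤ 1800 * C1 / η * (Q : ℝ) ^ 2 * Real.exp (-(c * a)) +
        1800 * C2 * K * (Q : ℝ) ^ 2 * Real.exp (-(c * a)) := add_le_add E1 E2
    _ = _ := by ring

end Pool.Agent.W226.AF
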